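import Pool.Agent.W203.SP.Stm2

/-! SP-AVG (helper883): the averaged estimate on the sphere. -/

set_option autoImplicit false

namespace Pool.Agent.W883.SP

open MeasureTheory Set Complex Filter Metric
open scoped ENNReal NNReal
open Pool.Agent.H153R4 (E BS ch ST cube kk dd)
open Pool.Agent.W203.SP

lemma fb_pow {k : ℕ} (f : E k → ℂ) (p : ℝ) (hp : 0 < p) (z : E k) :
    ‖fb f z‖ₑ ^ p = (ball (0 : E k) 1).indicator (fun z => ‖f z‖ₑ ^ p) z := by
  unfold fb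
  by_cases hz : z ∈ ball (0 : E k) 1
  · rw [indicator_of_mem hz, indicator_of_mem hz]
  · rw [indicator_of_notMem hz, indicator_of_notMem hz, enorm_zero, ENNReal.zero_rpow_of_pos hp]

theorem t_AVG (h1 : S_LQ) (h2 : S_FDL) (h3 : S_SUBST) (h4 : S_NQM) : S_AVG := by
  intro k p a b hk hp ha hab hb
  have hk0 : (0 : ℝ) < k := by
    have : 0 < k := by omega
    exact_mod_cast this
  have hp0 : 0 < p := by
    have : 0 < 2 / (k : ℝ) := by positivity
    linarith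
  have hb0 : 0 < b := lt_of_lt_of_le ha hab
  have hb2 : b ^ 2 < 1 := by nlinarith
  obtain ⟨C₁, hC₁, hC₁', hmain⟩ := h1 k p (b ^ 2) hk hp (by positivity) hb2
  refine ⟨ENNReal.ofReal ((a ^ k)⁻¹) * (ENNReal.ofReal (((2 * a) ^ k)⁻¹) * C₁), ?_, ?_⟩
  · exact ENNReal.mul_lt_top ENNReal.ofReal_lt_top (ENNReal.mul_lt_top ENNReal.ofReal_lt_top hC₁')
  intro f hf
  have hfb : Measurable (fb f) := hf.indicator measurableSet_ball
  have hfb0 : ∀ z, 1 < ‖z‖ → fb f z = 0 := by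
    intro z hz
    unfold fb
    apply indicator_of_notMem
    rw [mem_ball_zero_iff]
    linarith
  -- pointwise bound
  have hpt : ∀ l ∈ Icc (fun _ : Fin k => a) (fun _ => b), ∫⁻ ξ, ‖FD l f ξ‖ₑ ^ p ≤
      ENNReal.ofReal ((a ^ k)⁻¹) * NQ 1 p univ (fun j => l j ^ 2) (fb f) := by
    intro l hl
    have hl1 : ∀ j, a ≤ l j := fun j => hl.1 j
    have hl2 : ∀ j, l j ≤ b := fun j => hl.2 j
    rw [h2 k l (fun j => ⟨lt_of_lt_of_le ha (hl1 j), lt_of_le_of_lt (hl2 j) hb⟩) f hf p hp0.le]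
    have hprod0 : 0 < ∏ j, l j := Finset.prod_pos fun j _ => lt_of_lt_of_le ha (hl1 j)
    have hprod1 : ∏ j, l j ≤ 1 := by
      refine Finset.prod_le_one (fun j _ => (lt_of_lt_of_le ha (hl1 j)).le) fun j _ => ?_
      linarith [hl2 j]
    have hprod2 : a ^ k ≤ ∏ j, l j := by
      calc a ^ k = ∏ _j : Fin k, a := by simp
        _ ≤ ∏ j, l j := Finset.prod_le_prod (fun _ _ => ha.le) fun j _ => hl1 j
    have e1 : ENNReal.ofReal ((∏ j, l j) ^ p) ≤ 1 := by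
      rw [← ENNReal.ofReal_one]
      exact ENNReal.ofReal_le_ofReal (Real.rpow_le_one hprod0.le hprod1 hp0.le)
    have e2 : ENNReal.ofReal ((∏ j, l j)⁻¹) ≤ ENNReal.ofReal ((a ^ k)⁻¹) :=
      ENNReal.ofReal_le_ofReal (inv_anti₀ (by positivity) hprod2)
    calc ENNReal.ofReal ((∏ j, l j) ^ p) * ENNReal.ofReal ((∏ j, l j)⁻¹) *
          NQ 1 p univ (fun j => l j ^ 2) (fb f)
        ≤ 1 * ENNReal.ofReal ((a ^ k)⁻¹) * NQ 1 p univ (fun j => l j ^ 2) (fb f) := by gcongr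
      _ = _ := by rw [one_mul]
  have hG : Measurable fun s : Fin k → ℝ => NQ 1 p univ s (fb f) := h4 k 1 p univ (fb f) hfb
  have hG2 : Measurable fun l : Fin k → ℝ => NQ 1 p univ (fun j => l j ^ 2) (fb f) := by
    refine hG.comp ?_
    refine measurable_pi_iff.2 fun j => ?_
    exact (measurable_pi_apply j).pow_const 2
  have hset : Icc (fun _ : Fin k => a ^ 2) (fun _ => b ^ 2) ⊆
      Icc (fun _ : Fin k => (0 : ℝ)) (fun _ => b ^ 2) := by
    intro s hs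
    refine ⟨fun j => ?_, hs.2⟩
    exact le_trans (by positivity) (hs.1 j)
  calc ∫⁻ l in Icc (fun _ : Fin k => a) (fun _ => b), ∫⁻ ξ, ‖FD l f ξ‖ₑ ^ p
      ≤ ∫⁻ l in Icc (fun _ : Fin k => a) (fun _ => b),
          ENNReal.ofReal ((a ^ k)⁻¹) * NQ 1 p univ (fun j => l j ^ 2) (fb f) :=
        setLIntegral_mono' measurableSet_Icc hpt
    _ = ENNReal.ofReal ((a ^ k)⁻¹) * ∫⁻ l in Icc (fun _ : Fin k => a) (fun _ => b),
          NQ 1 p univ (fun j => l j ^ 2) (fb f) := lintegral_const_mul _ hG2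
    _ ≤ ENNReal.ofReal ((a ^ k)⁻¹) * (ENNReal.ofReal (((2 * a) ^ k)⁻¹) *
          ∫⁻ s in Icc (fun _ : Fin k => a ^ 2) (fun _ => b ^ 2), NQ 1 p univ s (fb f)) := by
        gcongr
        exact h3 k a b ha hab (fun s => NQ 1 p univ s (fb f)) hG
    _ ≤ ENNReal.ofReal ((a ^ k)⁻¹) * (ENNReal.ofReal (((2 * a) ^ k)⁻¹) *
          ∫⁻ s in Icc (fun _ : Fin k => (0 : ℝ)) (fun _ => b ^ 2), NQ 1 p univ s (fb f)) := by
        gcongr
    _ ≤ ENNReal.ofReal ((a ^ k)⁻¹) * (ENNReal.ofReal (((2 * a) ^ k)⁻¹) *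
          (C₁ * ∫⁻ z, ‖fb f z‖ₑ ^ p)) := by
        gcongr
        exact hmain (fb f) hfb hfb0
    _ = ENNReal.ofReal ((a ^ k)⁻¹) * (ENNReal.ofReal (((2 * a) ^ k)⁻¹) * C₁) *
          ∫⁻ z in ball (0 : E k) 1, ‖f z‖ₑ ^ p := by
        rw [← lintegral_indicator measurableSet_ball]
        simp only [fb_pow f p hp0]
        ring

end Pool.Agent.W883.SP
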