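import Pool.Agent.W798.SP.Stm

/-!
Subtask SPX-C0: the configuration set of the clustered Solymosi argument.
-/

set_option autoImplicit false

open Finset
open scoped Classical Pointwise

namespace Pool.Agent.W883.SP

open Pool.Agent.W798.SP

abbrev Et := (ℝ × ℝ) × (ℝ × ℝ)

def zf (e : Et) : ℝ × ℝ := (e.2.1 + e.2.2, e.1.1 * e.2.1 + e.1.2 * e.2.2)

noncomputable def Phi (g : Et → Et) (e : Et) : (Fin 4 → ℝ) × (Fin 3 → ℝ) :=
  if (g e).1.2 ≠ e.1.1 ∧ (g e).1.2 ≠ e.1.2 then
    (![e.1.1, e.1.2, (g e).1.1, (g e).1.2], ![e.2.1, e.2.2, (g e).2.1])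
  else (![e.1.1, e.1.2, (g e).1.2, (g e).1.1], ![e.2.1, e.2.2, (g e).2.2])

lemma Phi_vals (g : Et → Et) (e : Et) : (Phi g e).1 0 = e.1.1 ∧ (Phi g e).1 1 = e.1.2 ∧
    (Phi g e).2 0 = e.2.1 ∧ (Phi g e).2 1 = e.2.2 := by
  unfold Phi
  split_ifs <;> refine ⟨rfl, rfl, rfl, rfl⟩

lemma zf_bd {e : Et} (h : e.1.1 < e.1.2) (hx : 0 < e.2.1) (hy : 0 < e.2.2) :
    e.1.1 * (zf e).1 < (zf e).2 ∧ (zf e).2 < e.1.2 * (zf e).1 := by
  unfold zf
  constructor
  · have := mul_pos (sub_pos.2 h) hy
    simp only; nlinarith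
  · have := mul_pos (sub_pos.2 h) hx
    simp only; nlinarith

theorem tC0 (hCC : S_CC) : S_C0 := by
  intro A S T M hA hT hM hMS hS hK
  obtain ⟨c, cmono, ccls, ccnt⟩ := hCC S M hM hMS
  have fpos : ∀ l x, x ∈ fib A l → 0 < x := fun l x hx => hA x (Finset.mem_filter.1 hx).1
  set P := (S ×ˢ S).filter (fun q => q.1 < q.2 ∧ c q.1 = c q.2) with hP
  set E : Finset Et := ((S ×ˢ S) ×ˢ (A ×ˢ A)).filter
    (fun e => e.1.1 < e.1.2 ∧ c e.1.1 = c e.1.2 ∧ e.2.1 ∈ fib A e.1.1 ∧ e.2.2 ∈ fib A e.1.2) with hE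
  have memE : ∀ e, e ∈ E ↔ e.1.1 ∈ S ∧ e.1.2 ∈ S ∧ e.1.1 < e.1.2 ∧ c e.1.1 = c e.1.2 ∧
      e.2.1 ∈ fib A e.1.1 ∧ e.2.2 ∈ fib A e.1.2 := by
    intro e
    rw [hE, Finset.mem_filter, Finset.mem_product, Finset.mem_product, Finset.mem_product]
    constructor
    · rintro ⟨⟨⟨h1, h2⟩, _⟩, h3, h4, h5, h6⟩
      exact ⟨h1, h2, h3, h4, h5, h6⟩
    · rintro ⟨h1, h2, h3, h4, h5, h6⟩
      exact ⟨⟨⟨h1, h2⟩, (Finset.mem_filter.1 h5).1, (Finset.mem_filter.1 h6).1⟩, h3, h4, h5, h6⟩
  have hEP : P.card * T ^ 2 ≤ E.card := by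
    have h1 : E.card = ∑ q ∈ P, (E.filter (fun e => e.1 = q)).card := by
      apply Finset.card_eq_sum_card_fiberwise
      intro e he
      have := (memE e).1 he
      rw [hP]
      exact Finset.mem_coe.2 (Finset.mem_filter.2 ⟨Finset.mem_product.2 ⟨this.1, this.2.1⟩, this.2.2.1,
        this.2.2.2.1⟩)
    rw [h1, ← smul_eq_mul, ← Finset.sum_const]
    apply Finset.sum_le_sum
    intro q hq
    rw [hP, Finset.mem_filter, Finset.mem_product] at hq
    obtain ⟨⟨q1, q2⟩, q3, q4⟩ := hq
    calc T ^ 2 = T * T := sq T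
      _ ≤ (fib A q.1).card * (fib A q.2).card :=
          Nat.mul_le_mul (hS q.1 q1).2.1 (hS q.2 q2).2.1
      _ = (fib A q.1 ×ˢ fib A q.2).card := (Finset.card_product _ _).symm
      _ ≤ (E.filter (fun e => e.1 = q)).card := by
          apply Finset.card_le_card_of_injOn (fun r => (q, r))
          · intro r hr
            have hr' := Finset.mem_product.1 (Finset.mem_coe.1 hr)
            exact Finset.mem_coe.2 (Finset.mem_filter.2 ⟨(memE _).2 ⟨q1, q2, q3, q4, hr'.1, hr'.2⟩, rfl⟩)
          · intro r _ r' _ h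
            exact (Prod.mk.inj h).2
  have hzmem : ∀ e ∈ E, zf e ∈ (A + A) ×ˢ (A + A) := by
    intro e he
    obtain ⟨h1, h2, h3, h4, h5, h6⟩ := (memE e).1 he
    rw [fib, Finset.mem_filter] at h5 h6
    exact Finset.mem_product.2 ⟨Finset.add_mem_add h5.1 h6.1, Finset.add_mem_add h5.2 h6.2⟩
  have hb : ∀ e ∈ E, e.1.1 * (zf e).1 < (zf e).2 ∧ (zf e).2 < e.1.2 * (zf e).1 ∧ 0 < (zf e).1 := by
    intro e he
    obtain ⟨h1, h2, h3, h4, h5, h6⟩ := (memE e).1 he
    have hx := fpos _ _ h5
    have hy := fpos _ _ h6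
    exact ⟨(zf_bd h3 hx hy).1, (zf_bd h3 hx hy).2, add_pos hx hy⟩
  have hcl : ∀ e ∈ E, ∀ e' ∈ E, zf e' = zf e → ¬ (c e.1.1 < c e'.1.1) := by
    intro e he e' he' hz hlt
    obtain ⟨h1, h2, h3, h4, h5, h6⟩ := (memE e).1 he
    obtain ⟨h1', h2', h3', h4', h5', h6'⟩ := (memE e').1 he'
    have hba : e.1.2 < e'.1.1 := by
      by_contra hcon
      have := cmono _ h1' _ h2 (not_lt.1 hcon)
      omega
    have b1 := hb e he
    have b2 := hb e' he'
    rw [hz] at b2
    have := mul_lt_mul_of_pos_right hba b1.2.2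
    linarith [b1.2.1, b2.1]
  have hiii : ∀ e ∈ E, ∀ e' ∈ E, zf e' = zf e → e'.1.1 = e.1.1 → e'.1.2 = e.1.2 → e' = e := by
    intro e he e' he' hz ha hb'
    obtain ⟨h1, h2, h3, h4, h5, h6⟩ := (memE e).1 he
    have z1 : e'.2.1 + e'.2.2 = e.2.1 + e.2.2 := congrArg Prod.fst hz
    have z2 : e'.1.1 * e'.2.1 + e'.1.2 * e'.2.2 = e.1.1 * e.2.1 + e.1.2 * e.2.2 :=
      congrArg Prod.snd hz
    rw [ha, hb'] at z2
    have hne : e.1.2 - e.1.1 ≠ 0 := (sub_pos.2 h3).ne'
    have hy : e'.2.2 = e.2.2 := by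
      have : (e.1.2 - e.1.1) * (e'.2.2 - e.2.2) = 0 := by linear_combination z2 - e.1.1 * z1
      rcases mul_eq_zero.1 this with h | h
      · exact absurd h hne
      · linarith
    have hx : e'.2.1 = e.2.1 := by linarith
    exact Prod.ext (Prod.ext ha hb') (Prod.ext hx hy)
  set O := E.filter (fun e => ∃ e' ∈ E, e' ≠ e ∧ zf e' = zf e) with hO
  have hOc : E.card ≤ O.card + (A + A).card ^ 2 := by
    have h1 : (E.filter (fun e => ¬ ∃ e' ∈ E, e' ≠ e ∧ zf e' = zf e)).card ≤ (A + A).card ^ 2 := by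
      rw [sq, ← Finset.card_product]
      apply Finset.card_le_card_of_injOn zf
      · intro e he
        exact Finset.mem_coe.2 (hzmem e (Finset.mem_filter.1 (Finset.mem_coe.1 he)).1)
      · intro e he e' he' hz
        have h2 := Finset.mem_filter.1 (Finset.mem_coe.1 he)
        have h3 := Finset.mem_filter.1 (Finset.mem_coe.1 he')
        by_contra hne
        exact h2.2 ⟨e', h3.1, fun h => hne h.symm, hz.symm⟩
    have h2 := Finset.card_filter_add_card_filter_not (s := E)
      (fun e => ∃ e' ∈ E, e' ≠ e ∧ zf e' = zf e)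
    rw [← hO] at h2
    omega
  have hOE : ∀ e ∈ O, e ∈ E := fun e he => (Finset.mem_filter.1 he).1
  have hpart : ∀ e ∈ O, ∃ e' ∈ E, e' ≠ e ∧ zf e' = zf e := fun e he => (Finset.mem_filter.1 he).2
  choose! g gE gne gz using hpart
  have hcc : ∀ e ∈ O, c (g e).1.1 = c e.1.1 := by
    intro e he
    have h1 := hcl e (hOE e he) (g e) (gE e he) (gz e he)
    have h2 := hcl (g e) (gE e he) e (hOE e he) (gz e he).symm
    omega
  have hinj : Set.InjOn (Phi g) O := by
    intro e _ e' _ h
    have v := Phi_vals g e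
    have v' := Phi_vals g e'
    rw [h] at v
    exact Prod.ext (Prod.ext (v.1.symm.trans v'.1) (v.2.1.symm.trans v'.2.1))
      (Prod.ext (v.2.2.1.symm.trans v'.2.2.1) (v.2.2.2.symm.trans v'.2.2.2))
  have hlab : ∀ e ∈ O, ∀ i, (Phi g e).1 i ∈ S ∧ c ((Phi g e).1 i) = c e.1.1 := by
    intro e he i
    obtain ⟨h1, h2, h3, h4, h5, h6⟩ := (memE e).1 (hOE e he)
    obtain ⟨h1', h2', h3', h4', h5', h6'⟩ := (memE (g e)).1 (gE e he)
    have h7 := hcc e he
    unfold Phi
    split_ifs with hcase
    · fin_cases i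
      · exact ⟨h1, rfl⟩
      · exact ⟨h2, h4.symm⟩
      · exact ⟨h1', h7⟩
      · exact ⟨h2', h4'.symm.trans h7⟩
    · fin_cases i
      · exact ⟨h1, rfl⟩
      · exact ⟨h2, h4.symm⟩
      · exact ⟨h2', h4'.symm.trans h7⟩
      · exact ⟨h1', h7⟩
  have hclsc : ∀ a, (S.filter (fun b => c b = c a)).card ≤ M := fun a => ccls (c a)
  refine ⟨O.image (Phi g), ?_, ?_, ?_, ?_, ?_⟩
  · intro w hw
    obtain ⟨e, he, rfl⟩ := Finset.mem_image.1 hw
    obtain ⟨h1, h2, h3, h4, h5, h6⟩ := (memE e).1 (hOE e he)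
    obtain ⟨h1', h2', h3', h4', h5', h6'⟩ := (memE (g e)).1 (gE e he)
    have z1 : (g e).2.1 + (g e).2.2 = e.2.1 + e.2.2 := congrArg Prod.fst (gz e he)
    have z2 : (g e).1.1 * (g e).2.1 + (g e).1.2 * (g e).2.2 = e.1.1 * e.2.1 + e.1.2 * e.2.2 :=
      congrArg Prod.snd (gz e he)
    refine ⟨fun i => (hlab e he i).1, ?_, ?_, ?_⟩
    · intro i
      unfold Phi
      split_ifs with hcase
      · fin_cases i
        · exact h5
        · exact h6
        · exact h5'
      · fin_cases i
        · exact h5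
        · exact h6
        · exact h6'
    · intro i
      unfold Phi
      split_ifs with hcase
      · fin_cases i
        · exact fun h => hcase.1 h.symm
        · exact fun h => hcase.2 h.symm
        · exact fun h => h3'.ne h
      · have hor : (g e).1.2 = e.1.1 ∨ (g e).1.2 = e.1.2 := by
          by_contra hcon
          push Not at hcon
          exact hcase hcon
        fin_cases i
        · show e.1.1 ≠ (g e).1.1
          intro h
          rcases hor with h' | h'
          · rw [h', h] at h3'; exact lt_irrefl _ h3'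
          · exact gne e he (hiii e (hOE e he) (g e) (gE e he) (gz e he) h.symm h')
        · show e.1.2 ≠ (g e).1.1
          intro h
          rcases hor with h' | h'
          · rw [h', ← h] at h3'; exact lt_irrefl _ (h3'.trans h3)
          · rw [h', h] at h3'; exact lt_irrefl _ h3'
        · exact fun h => h3'.ne' h
    · unfold Phi
      split_ifs with hcase
      · show (e.1.1 - (g e).1.2) * e.2.1 + (e.1.2 - (g e).1.2) * e.2.2 =
          ((g e).1.1 - (g e).1.2) * (g e).2.1
        linear_combination (g e).1.2 * z1 - z2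
      · show (e.1.1 - (g e).1.1) * e.2.1 + (e.1.2 - (g e).1.1) * e.2.2 =
          ((g e).1.2 - (g e).1.1) * (g e).2.2
        linear_combination (g e).1.1 * z1 - z2
  · rw [Finset.card_image_of_injOn hinj]
    have h1 : S.card * M * T ^ 2 ≤ 8 * P.card * T ^ 2 := Nat.mul_le_mul_right _ ccnt
    have h2 : M * S.card * T ^ 2 = S.card * M * T ^ 2 := by ring
    have h3 : 8 * P.card * T ^ 2 = 8 * (P.card * T ^ 2) := by ring
    omega
  · have h1 : ((O.image (Phi g)).image Prod.fst).card ≤
        (S.biUnion (fun a => ({a} : Finset ℝ) ×ˢ ((S.filter (fun b => c b = c a)) ×ˢ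
          ((S.filter (fun b => c b = c a)) ×ˢ (S.filter (fun b => c b = c a)))))).card := by
      apply Finset.card_le_card_of_injOn (fun l => (l 0, (l 1, (l 2, l 3))))
      · intro l hl
        obtain ⟨w, hw, rfl⟩ := Finset.mem_image.1 (Finset.mem_coe.1 hl)
        obtain ⟨e, he, rfl⟩ := Finset.mem_image.1 hw
        have h := hlab e he
        have h0 : c ((Phi g e).1 0) = c e.1.1 := (h 0).2
        apply Finset.mem_coe.2
        refine Finset.mem_biUnion.2 ⟨(Phi g e).1 0, (h 0).1, ?_⟩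
        refine Finset.mem_product.2 ⟨Finset.mem_singleton_self _, Finset.mem_product.2 ⟨?_,
          Finset.mem_product.2 ⟨?_, ?_⟩⟩⟩
        · exact Finset.mem_filter.2 ⟨(h 1).1, (h 1).2.trans h0.symm⟩
        · exact Finset.mem_filter.2 ⟨(h 2).1, (h 2).2.trans h0.symm⟩
        · exact Finset.mem_filter.2 ⟨(h 3).1, (h 3).2.trans h0.symm⟩
      · intro l _ l' _ h
        simp only [Prod.mk.injEq] at h
        funext i
        fin_cases i
        · exact h.1
        · exact h.2.1
        · exact h.2.2.1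
        · exact h.2.2.2
    refine h1.trans (Finset.card_biUnion_le.trans ?_)
    rw [← smul_eq_mul, ← Finset.sum_const]
    apply Finset.sum_le_sum
    intro a _
    rw [Finset.card_product, Finset.card_product, Finset.card_product, Finset.card_singleton]
    have := hclsc a
    calc 1 * ((S.filter (fun b => c b = c a)).card * ((S.filter (fun b => c b = c a)).card *
          (S.filter (fun b => c b = c a)).card)) ≤ 1 * (M * (M * M)) := by gcongr
      _ = M ^ 3 := by ring
  · intro a
    by_cases haS : a ∈ S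
    · have h1 : ((O.image (Phi g)).filter (fun w => w.1 0 = a)).card ≤
          ((S.filter (fun b => c b = c a)).biUnion (fun b => ({b} : Finset ℝ) ×ˢ
            (fib A a ×ˢ fib A b))).card := by
        apply Finset.card_le_card_of_injOn (fun w => (w.1 1, (w.2 0, w.2 1)))
        · intro w hw
          obtain ⟨hw1, hw2⟩ := Finset.mem_filter.1 (Finset.mem_coe.1 hw)
          obtain ⟨e, he, rfl⟩ := Finset.mem_image.1 hw1
          obtain ⟨h1, h2, h3, h4, h5, h6⟩ := (memE e).1 (hOE e he)
          obtain ⟨v1, v2, v3, v4⟩ := Phi_vals g e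
          rw [v1] at hw2
          subst hw2
          apply Finset.mem_coe.2
          refine Finset.mem_biUnion.2 ⟨e.1.2, Finset.mem_filter.2 ⟨h2, h4.symm⟩, ?_⟩
          simp only [v2, v3, v4]
          exact Finset.mem_product.2 ⟨Finset.mem_singleton_self _, Finset.mem_product.2 ⟨h5, h6⟩⟩
        · intro w hw w' hw' h
          obtain ⟨hw1, hw2⟩ := Finset.mem_filter.1 (Finset.mem_coe.1 hw)
          obtain ⟨e, he, rfl⟩ := Finset.mem_image.1 hw1
          obtain ⟨hw1', hw2'⟩ := Finset.mem_filter.1 (Finset.mem_coe.1 hw')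
          obtain ⟨e', he', rfl⟩ := Finset.mem_image.1 hw1'
          obtain ⟨v1, v2, v3, v4⟩ := Phi_vals g e
          obtain ⟨v1', v2', v3', v4'⟩ := Phi_vals g e'
          simp only [v2, v3, v4, v2', v3', v4', Prod.mk.injEq] at h
          rw [v1] at hw2
          rw [v1'] at hw2'
          have : e = e' := Prod.ext (Prod.ext (hw2.trans hw2'.symm) h.1) (Prod.ext h.2.1 h.2.2)
          rw [this]
      refine h1.trans (Finset.card_biUnion_le.trans ?_)
      calc ∑ b ∈ S.filter (fun b => c b = c a), (({b} : Finset ℝ) ×ˢ (fib A a ×ˢ fib A b)).card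
          ≤ ∑ b ∈ S.filter (fun b => c b = c a), 4 * T ^ 2 := by
            apply Finset.sum_le_sum
            intro b hb'
            rw [Finset.card_product, Finset.card_product, Finset.card_singleton, one_mul]
            have i1 := (hS a haS).2.2.le
            have i2 := (hS b (Finset.mem_filter.1 hb').1).2.2.le
            calc (fib A a).card * (fib A b).card ≤ (2 * T) * (2 * T) := Nat.mul_le_mul i1 i2
              _ = 4 * T ^ 2 := by ring
        _ = (S.filter (fun b => c b = c a)).card * (4 * T ^ 2) := by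
            rw [Finset.sum_const, smul_eq_mul]
        _ ≤ M * (4 * T ^ 2) := Nat.mul_le_mul_right _ (hclsc a)
        _ = 4 * T ^ 2 * M := by ring
    · have : (O.image (Phi g)).filter (fun w => w.1 0 = a) = ∅ := by
        apply Finset.filter_false_of_mem
        intro w hw h
        obtain ⟨e, he, rfl⟩ := Finset.mem_image.1 hw
        exact haS (h ▸ (hlab e he 0).1)
      rw [this]; simp
  · intro a
    by_cases haS : a ∈ S
    · have h1 : ((O.image (Phi g)).filter (fun w => w.1 1 = a)).card ≤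
          ((S.filter (fun b => c b = c a)).biUnion (fun b => ({b} : Finset ℝ) ×ˢ
            (fib A b ×ˢ fib A a))).card := by
        apply Finset.card_le_card_of_injOn (fun w => (w.1 0, (w.2 0, w.2 1)))
        · intro w hw
          obtain ⟨hw1, hw2⟩ := Finset.mem_filter.1 (Finset.mem_coe.1 hw)
          obtain ⟨e, he, rfl⟩ := Finset.mem_image.1 hw1
          obtain ⟨h1, h2, h3, h4, h5, h6⟩ := (memE e).1 (hOE e he)
          obtain ⟨v1, v2, v3, v4⟩ := Phi_vals g e
          rw [v2] at hw2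
          subst hw2
          apply Finset.mem_coe.2
          refine Finset.mem_biUnion.2 ⟨e.1.1, Finset.mem_filter.2 ⟨h1, h4⟩, ?_⟩
          simp only [v1, v3, v4]
          exact Finset.mem_product.2 ⟨Finset.mem_singleton_self _, Finset.mem_product.2 ⟨h5, h6⟩⟩
        · intro w hw w' hw' h
          obtain ⟨hw1, hw2⟩ := Finset.mem_filter.1 (Finset.mem_coe.1 hw)
          obtain ⟨e, he, rfl⟩ := Finset.mem_image.1 hw1
          obtain ⟨hw1', hw2'⟩ := Finset.mem_filter.1 (Finset.mem_coe.1 hw')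
          obtain ⟨e', he', rfl⟩ := Finset.mem_image.1 hw1'
          obtain ⟨v1, v2, v3, v4⟩ := Phi_vals g e
          obtain ⟨v1', v2', v3', v4'⟩ := Phi_vals g e'
          simp only [v1, v3, v4, v1', v3', v4', Prod.mk.injEq] at h
          rw [v2] at hw2
          rw [v2'] at hw2'
          have : e = e' := Prod.ext (Prod.ext h.1 (hw2.trans hw2'.symm)) (Prod.ext h.2.1 h.2.2)
          rw [this]
      refine h1.trans (Finset.card_biUnion_le.trans ?_)
      calc ∑ b ∈ S.filter (fun b => c b = c a), (({b} : Finset ℝ) ×ˢ (fib A b ×ˢ fib A a)).card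
          ≤ ∑ b ∈ S.filter (fun b => c b = c a), 4 * T ^ 2 := by
            apply Finset.sum_le_sum
            intro b hb'
            rw [Finset.card_product, Finset.card_product, Finset.card_singleton, one_mul]
            have i1 := (hS a haS).2.2.le
            have i2 := (hS b (Finset.mem_filter.1 hb').1).2.2.le
            calc (fib A b).card * (fib A a).card ≤ (2 * T) * (2 * T) := Nat.mul_le_mul i2 i1
              _ = 4 * T ^ 2 := by ring
        _ = (S.filter (fun b => c b = c a)).card * (4 * T ^ 2) := by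
            rw [Finset.sum_const, smul_eq_mul]
        _ ≤ M * (4 * T ^ 2) := Nat.mul_le_mul_right _ (hclsc a)
        _ = 4 * T ^ 2 * M := by ring
    · have : (O.image (Phi g)).filter (fun w => w.1 1 = a) = ∅ := by
        apply Finset.filter_false_of_mem
        intro w hw h
        obtain ⟨e, he, rfl⟩ := Finset.mem_image.1 hw
        exact haS (h ▸ (hlab e he 1).1)
      rw [this]; simp

end Pool.Agent.W883.SP
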